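import Pool.Agent.X55.HZ.Stm

set_option autoImplicit false

namespace Pool.Agent.X315.HZ

open Finset Pool.Agent.X55.HZ

variable {n m : ℕ}

/-- the indicator of one coloured edge -/
def one (k : Fin m) (x y : Fin n) : Fin m → Fin n → Fin n → ℕ :=
  fun k' x' y' => if k' = k ∧ x' = x ∧ y' = y then 1 else 0

/-- walks with given edge counts -/
inductive W : (Fin m → Fin n → Fin n → ℕ) → Fin n → Fin n → Prop
  | nil (x : Fin n) : W 0 x x
  | cons {g : Fin m → Fin n → Fin n → ℕ} (k : Fin m) (x y z : Fin n) (h : W g y z) :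
      W (g + one k x y) x z

theorem W.append {g1 g2 : Fin m → Fin n → Fin n → ℕ} {x y z : Fin n} (h1 : W g1 x y)
    (h2 : W g2 y z) : W (g1 + g2) x z := by
  induction h1 with
  | nil x => simpa using h2
  | @cons g k x y w h ih =>
    have := W.cons k x y z (ih h2)
    rwa [add_right_comm] at this

/-- visited vertices -/
def Vis (g : Fin m → Fin n → Fin n → ℕ) (u z : Fin n) : Prop := z = u ∨ ∃ k x, g k x z ≠ 0

theorem W.split {g : Fin m → Fin n → Fin n → ℕ} {u v : Fin n} (h : W g u v) :
    ∀ z, Vis g u z → ∃ g1 g2, g = g1 + g2 ∧ W g1 u z ∧ W g2 z v := by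
  induction h with
  | nil x =>
    rintro z (rfl | ⟨k, y, hk⟩)
    · exact ⟨0, 0, by simp, W.nil _, W.nil _⟩
    · simp at hk
  | @cons g k x y w h ih =>
    rintro z (rfl | ⟨k', x', hk⟩)
    · exact ⟨0, _, by simp, W.nil _, W.cons k _ y w h⟩
    · have hv : Vis g y z := by
        by_cases hz : z = y
        · exact Or.inl hz
        · right
          refine ⟨k', x', ?_⟩
          have : one k x y k' x' z = 0 := by
            unfold one
            rw [if_neg (fun hh => hz hh.2.2)]
          simpa [this] using hk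
      obtain ⟨g1, g2, rfl, h1, h2⟩ := ih z hv
      exact ⟨g1 + one k x y, g2, by rw [add_right_comm], W.cons k x y z h1, h2⟩

theorem one_out (k : Fin m) (x y z : Fin n) :
    (∑ k', ∑ y', one k x y k' z y') = if z = x then 1 else 0 := by
  unfold one
  by_cases hz : z = x
  · subst hz
    rw [if_pos rfl, Finset.sum_eq_single k, Finset.sum_eq_single y]
    · simp
    · intro b _ hb
      simp [hb]
    · simp
    · intro b _ hb
      simp [hb]
    · simp
  · simp [hz]

theorem one_in (k : Fin m) (x y z : Fin n) :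
    (∑ k', ∑ x', one k x y k' x' z) = if z = y then 1 else 0 := by
  unfold one
  by_cases hz : z = y
  · subst hz
    rw [if_pos rfl, Finset.sum_eq_single k, Finset.sum_eq_single x]
    · simp
    · intro b _ hb
      simp [hb]
    · simp
    · intro b _ hb
      simp [hb]
    · simp
  · simp [hz]

theorem one_col (k : Fin m) (x y : Fin n) (k' : Fin m) :
    (∑ x', ∑ y', one k x y k' x' y') = (Pi.single k 1 : Fin m → ℕ) k' := by
  unfold one
  by_cases hk : k' = k
  · subst hk
    rw [Pi.single_eq_same, Finset.sum_eq_single x, Finset.sum_eq_single y]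
    · simp
    · intro b _ hb
      simp [hb]
    · simp
    · intro b _ hb
      simp [hb]
    · simp
  · simp [hk]

theorem W.flow {g : Fin m → Fin n → Fin n → ℕ} {u v : Fin n} (h : W g u v) : Flow g u v := by
  induction h with
  | nil x => intro z; simp
  | @cons g k x y w h ih =>
    intro z
    have h1 := ih z
    have h2 := one_out k x y z
    have h3 := one_in k x y z
    simp only [Pi.add_apply, Finset.sum_add_distrib] at h1 h2 h3 ⊢
    rw [h2, h3]
    omega

theorem W.wk {g f : Fin m → Fin n → Fin n → ℕ} {u v : Fin n} (h : W g u v) :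
    (∀ k x y, g k x y ≠ 0 → f k x y ≠ 0) →
    Wk (fun k x y => f k x y ≠ 0) (fun k => ∑ x, ∑ y, g k x y) u v := by
  induction h with
  | nil x =>
    intro _
    have : (fun k : Fin m => ∑ x : Fin n, ∑ y : Fin n, (0 : Fin m → Fin n → Fin n → ℕ) k x y) = 0 := by
      ext k
      simp
    rw [this]
    exact Wk.nil x
  | @cons g k x y w h ih =>
    intro hf
    have h1 : f k x y ≠ 0 := hf k x y (by simp [one])
    have h2 := ih (fun k' x' y' hh => hf k' x' y' (by simp [hh]))
    have h3 := Wk.cons (E := fun k x y => f k x y ≠ 0) h1 h2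
    have : (fun k' => ∑ x', ∑ y', (g + one k x y) k' x' y') =
        (fun k' => ∑ x', ∑ y', g k' x' y') + Pi.single k 1 := by
      ext k'
      simp only [Pi.add_apply, Finset.sum_add_distrib, one_col]
    rw [this]
    exact h3

/-- total number of edges -/
def tot (g : Fin m → Fin n → Fin n → ℕ) : ℕ := ∑ k, ∑ x, ∑ y, g k x y

theorem tot_add (g h : Fin m → Fin n → Fin n → ℕ) : tot (g + h) = tot g + tot h := by
  simp only [tot, Pi.add_apply, Finset.sum_add_distrib]

theorem tot_mono {g h : Fin m → Fin n → Fin n → ℕ} (hl : ∀ k x y, g k x y ≤ h k x y) :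
    tot g ≤ tot h :=
  Finset.sum_le_sum fun _ _ => Finset.sum_le_sum fun _ _ => Finset.sum_le_sum fun _ _ => hl _ _ _

theorem tot_pos {g : Fin m → Fin n → Fin n → ℕ} {k : Fin m} {x y : Fin n} (h : g k x y ≠ 0) :
    0 < tot g := by
  have h1 : g k x y ≤ ∑ y', g k x y' :=
    Finset.single_le_sum (f := fun y' => g k x y') (fun _ _ => Nat.zero_le _) (Finset.mem_univ y)
  have h2 : ∑ y', g k x y' ≤ ∑ x', ∑ y', g k x' y' :=
    Finset.single_le_sum (f := fun x' => ∑ y', g k x' y') (fun _ _ => Nat.zero_le _)
      (Finset.mem_univ x)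
  have h3 : ∑ x', ∑ y', g k x' y' ≤ tot g :=
    Finset.single_le_sum (f := fun k' => ∑ x', ∑ y', g k' x' y') (fun _ _ => Nat.zero_le _)
      (Finset.mem_univ k)
  omega

theorem greedy : ∀ (N : ℕ) (h : Fin m → Fin n → Fin n → ℕ) (u : Fin n), tot h ≤ N →
    ∃ g w, (∀ k x y, g k x y ≤ h k x y) ∧ W g u w ∧ ∀ k y, g k w y = h k w y := by
  intro N
  induction N with
  | zero =>
    intro h u hN
    refine ⟨0, u, fun _ _ _ => Nat.zero_le _, W.nil u, fun k y => ?_⟩
    by_contra hcon
    have := tot_pos (g := h) (k := k) (x := u) (y := y) (fun h0 => hcon (by rw [h0]; rfl))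
    omega
  | succ N ih =>
    intro h u hN
    by_cases hex : ∃ k y, h k u y ≠ 0
    · obtain ⟨k, y, hk⟩ := hex
      let h' : Fin m → Fin n → Fin n → ℕ := fun k' x' y' => h k' x' y' - one k u y k' x' y'
      have hsum : h = h' + one k u y := by
        ext k' x' y'
        simp only [h', Pi.add_apply, one]
        split_ifs with hc
        · obtain ⟨rfl, rfl, rfl⟩ := hc
          omega
        · omega
      have h1 : tot (one k u y) ≠ 0 := (tot_pos (g := one k u y) (k := k) (x := u) (y := y)
        (by simp [one])).ne'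
      have h2 : tot h = tot h' + tot (one k u y) := by
        conv_lhs => rw [hsum]
        exact tot_add _ _
      obtain ⟨g, w, hg, hw, hs⟩ := ih h' y (by omega)
      refine ⟨g + one k u y, w, ?_, W.cons k u y w hw, ?_⟩
      · intro k' x' y'
        have e := congrFun (congrFun (congrFun hsum k') x') y'
        have := hg k' x' y'
        simp only [Pi.add_apply] at e ⊢
        omega
      · intro k' y'
        have e := congrFun (congrFun (congrFun hsum k') w) y'
        have := hs k' y'
        simp only [Pi.add_apply] at e ⊢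
        omega
    · push Not at hex
      exact ⟨0, u, fun _ _ _ => Nat.zero_le _, W.nil u, fun k y => by rw [hex k y]; rfl⟩

theorem exists_W {h : Fin m → Fin n → Fin n → ℕ} {u v : Fin n} (hF : Flow h u v) :
    ∃ g, (∀ k x y, g k x y ≤ h k x y) ∧ W g u v ∧ ∀ k y, g k v y = h k v y := by
  obtain ⟨g, w, hg, hw, hs⟩ := greedy (tot h) h u le_rfl
  have h1 := hF w
  have h2 := hw.flow w
  have h3 : (∑ k, ∑ y, g k w y) = ∑ k, ∑ y, h k w y :=
    Finset.sum_congr rfl fun k _ => Finset.sum_congr rfl fun y _ => hs k y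
  have h4 : (∑ k, ∑ x, g k x w) ≤ ∑ k, ∑ x, h k x w :=
    Finset.sum_le_sum fun k _ => Finset.sum_le_sum fun x _ => hg k x w
  have hwv : w = v := by
    by_contra hne
    simp only [if_neg hne, if_true] at h1 h2
    omega
  subst hwv
  exact ⟨g, hg, hw, hs⟩

theorem t_EUL : S_EUL := by
  intro n m f u v hconn hF
  classical
  -- a walk of maximal length
  let P : ℕ → Prop := fun t => ∃ g, (∀ k x y, g k x y ≤ f k x y) ∧ W g u v ∧ tot g = t
  obtain ⟨g0, hg0, hw0, -⟩ := exists_W hF
  have hP0 : P (tot g0) := ⟨g0, hg0, hw0, rfl⟩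
  obtain ⟨g, hg, hw, hgt⟩ := Nat.findGreatest_spec (P := P) (tot_mono hg0) hP0
  have hmax : ∀ g', (∀ k x y, g' k x y ≤ f k x y) → W g' u v → tot g' ≤ tot g := by
    intro g' hg' hw'
    by_contra hcon
    exact Nat.findGreatest_is_greatest (P := P) (by rw [← hgt]; omega) (tot_mono hg')
      ⟨g', hg', hw', rfl⟩
  let h : Fin m → Fin n → Fin n → ℕ := fun k x y => f k x y - g k x y
  have hsum : ∀ k x y, f k x y = g k x y + h k x y := by
    intro k x y
    have := hg k x y
    simp only [h]
    omega
  have hcirc : ∀ z, Flow h z z := by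
    intro z0 z
    have h1 := hF z
    have h2 := hw.flow z
    simp only [hsum, Finset.sum_add_distrib] at h1
    omega
  have hno : ∀ z, Vis g u z → ∀ k y, h k z y = 0 := by
    intro z hz k y
    by_contra hne
    obtain ⟨g', hg', hw', hs'⟩ := exists_W (hcirc z)
    obtain ⟨g1, g2, rfl, h1, h2⟩ := hw.split z hz
    have h3 := (h1.append hw').append h2
    have h4 := hmax _ (fun k x y => by
      have e1 := hsum k x y
      have e2 := hg' k x y
      simp only [Pi.add_apply] at e1 ⊢
      omega) h3
    have h5 : 0 < tot g' := tot_pos (k := k) (x := z) (y := y) (by rw [hs']; exact hne)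
    rw [tot_add, tot_add, tot_add] at h4
    omega
  have hvis : ∀ z, Vis g u z := by
    intro z
    have hz := hconn u z
    induction hz with
    | refl => exact Or.inl rfl
    | @tail b c _ he ih =>
      obtain ⟨k, hk⟩ := he
      right
      refine ⟨k, b, fun h0 => hk ?_⟩
      rw [hsum k b c, h0, hno b ih k c]
  have hfg : f = g := by
    ext k x y
    rw [hsum k x y, hno x (hvis x) k y, add_zero]
  have := hw.wk (f := f) (fun k x y hh => by rw [hfg]; exact hh)
  rw [← hfg] at this
  exact this

end Pool.Agent.X315.HZ
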